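import Pool.Agent.D0H73.MK.Ind
import Pool.Agent.D0H16.MK.Concat
import Pool.Agent.D0H16.MK.Fg
import Pool.Agent.D0H58.MK.BaseConv
import Pool.Agent.D0H18.MK.Bnd
import Pool.Agent.D0H18.MK.Restr
import Pool.Agent.D0H22.MK.Lim
import Pool.Agent.D0H35.MK.Pri
import Pool.Agent.D0H65.MK.Piece
import Pool.Agent.D0H96.MK.Mb

/-!
# Invariant Markushevich bases for spaces with a projectional skeleton (MP_14477d_an, Q1: yes)

Definitions in `Pool.Agent.D0H73.MK.Stm`: `IsSkel` (projectional skeleton), `IsSPRI κ E Q` with `E = id` (separable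
projectional resolution of the identity of length `κ`, `κ` identified with the initial ordinal
`κ.ord`), `IsMB` (Markushevich basis).

Proof: a skeleton has a cofinal bounded part; for a directed set `T` of indices `P_T x = lim_{t ∈ T} P_t x` is
a projection; for `T ⊆ T'` the space `(P_T' - P_T)X` has a skeleton again; a continuous chain of
directed sets of indices gives a projectional resolution whose pieces have skeletons and smaller
density, and the resolutions of the pieces are concatenated (induction on the density).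
-/

set_option autoImplicit false

open Set Topology Filter Cardinal Pool.Agent.D0H73.MK

namespace Pool.Agent.Results.MP_14477d_an.InvariantBasis

universe u

/-- `dens X`, the least cardinality of a dense subset -/
noncomputable def dens (X : Type u) [TopologicalSpace X] : Cardinal.{u} :=
  sInf {c | ∃ s : Set X, Dense s ∧ #s = c}

theorem dens_spec (X : Type u) [TopologicalSpace X] : ∃ s : Set X, Dense s ∧ #s = dens X := by
  have h : dens X ∈ {c | ∃ s : Set X, Dense s ∧ #s = c} :=
    csInf_mem ⟨#(Set.univ : Set X), Set.univ, dense_univ, rfl⟩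
  exact h

/-- **Positive answer to Q1.** Let `X` be a nonseparable Banach space (real or complex) admitting a
projectional skeleton and `κ = dens X`. Then `X` has an SPRI `(Q_α)_{α ≤ κ}`; and for every SPRI
`(Q_α)_{α ≤ κ}` of `X` there is a Markushevich basis `(x_i, x_i*)` of `X` with
`Q_α x_i ∈ {x_j : j ∈ I} ∪ {0}` for all `α ≤ κ` and `i ∈ I`. -/
theorem result (𝕜 : Type) [RCLike 𝕜] (X : Type u) [NormedAddCommGroup X] [NormedSpace 𝕜 X]
    [CompleteSpace X] (hX : ¬ TopologicalSpace.SeparableSpace X)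
    (Γ : Type u) [PartialOrder Γ] (P : Γ → X →L[𝕜] X) (hP : IsSkel P) :
    (∃ Q : Ordinal.{u} → X →L[𝕜] X, IsSPRI (dens X) (ContinuousLinearMap.id 𝕜 X) Q) ∧
    ∀ Q : Ordinal.{u} → X →L[𝕜] X, IsSPRI (dens X) (ContinuousLinearMap.id 𝕜 X) Q →
      ∃ (I : Type u) (x : I → X) (f : I → X →L[𝕜] 𝕜), IsMB x f ∧
        ∀ α ≤ (dens X).ord, ∀ i, Q α (x i) ∈ insert (0 : X) (range x) := by
  obtain ⟨s, hs, hc⟩ := dens_spec X
  have hκ : ℵ₀ ≤ dens X := by
    by_contra hcon
    push Not at hcon
    apply hX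
    refine ⟨⟨s, ?_, hs⟩⟩
    rw [← Cardinal.le_aleph0_iff_set_countable, hc]
    exact hcon.le
  refine ⟨?_, fun Q hQ => Pool.Agent.D0H96.MK.t_GLUE 𝕜 X (dens X) Q hQ⟩
  obtain ⟨S, r, hS⟩ := Pool.Agent.D0H18.MK.t_BND 𝕜 X Γ P hP
  exact t_IND (Pool.Agent.D0H35.MK.t_PRI Pool.Agent.D0H22.MK.t_LIM Pool.Agent.D0H18.MK.t_RESTR
    Pool.Agent.D0H65.MK.t_PIECE Pool.Agent.D0H16.MK.t_FG) Pool.Agent.D0H58.MK.t_BASE
    Pool.Agent.D0H58.MK.t_CONV Pool.Agent.D0H16.MK.t_CONCAT 𝕜 (dens X) hκ X S
    (fun s : S => P s) r hS ⟨s, subset_univ _, by rw [hs.closure_eq], hc.le⟩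

end Pool.Agent.Results.MP_14477d_an.InvariantBasis
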